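import Pool.Agent.TH293.AP.Core
import Pool.Agent.H301R2.SSE.Forms
import Pool.Agent.H297R2.InBakerThm

set_option autoImplicit false

/-!
# Additive pairs and powers of rational numbers with a fixed exponent: complex version

For a transcendental number `t` and a rational space `V` of linear forms in `1` and logarithms of
algebraic numbers, at most one rational number `x` in `(0, 1/2)` satisfies `t log x ∈ V` and
`t log (1 - x) ∈ V`, or these numbers are exactly `1/3`, `1/4`, `1/9`.
-/

namespace Pool.Agent.Q23.AP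

open Pool.Agent.TH293.AP
open Pool.Agent.H301R2.SSE (QB mem_QB Lt Lt_mul Lt_alg Lt_log strong_six)

/-- the complex number `log x` of a positive rational number -/
noncomputable def lg (x : ℚ) : ℂ := ((Real.log (x : ℝ) : ℝ) : ℂ)

lemma exp_lg {x : ℚ} (hx : 0 < x) : Complex.exp (lg x) = (x : ℂ) := by
  unfold lg
  rw [← Complex.ofReal_exp, Real.exp_log (by exact_mod_cast hx)]
  push_cast
  rfl

lemma exp_lg_alg {x : ℚ} (hx : 0 < x) : IsAlgebraic ℚ (Complex.exp (lg x)) := by
  rw [exp_lg hx]
  exact isAlgebraic_algebraMap x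

lemma lg_mul {x y : ℚ} (hx : x ≠ 0) (hy : y ≠ 0) : lg (x * y) = lg x + lg y := by
  unfold lg
  rw [Rat.cast_mul, Real.log_mul (by exact_mod_cast hx) (by exact_mod_cast hy)]
  push_cast
  rfl

lemma lg_zpow (x : ℚ) (k : ℤ) : lg (x ^ k) = k * lg x := by
  unfold lg
  rw [Rat.cast_zpow, Real.log_zpow]
  push_cast
  rfl

lemma lg_div {x y : ℚ} (hx : x ≠ 0) (hy : y ≠ 0) : lg (x / y) = lg x - lg y := by
  unfold lg
  rw [Rat.cast_div, Real.log_div (by exact_mod_cast hx) (by exact_mod_cast hy)]
  push_cast
  rfl

lemma lg_one : lg 1 = 0 := by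
  unfold lg
  simp

lemma lg_eq_zero {x : ℚ} (hx : 0 < x) (h : lg x = 0) : x = 1 := by
  have h1 : Real.log (x : ℝ) = 0 := by
    unfold lg at h
    exact_mod_cast h
  have h2 : (x : ℝ) = 1 := Real.eq_one_of_pos_of_log_eq_zero (by exact_mod_cast hx) h1
  exact_mod_cast h2

/-- three numbers which are not multiplicatively dependent have independent logarithms -/
lemma indep_lg {x y z : ℚ} (hx : 0 < x) (hy : 0 < y) (hz : 0 < z) (h : ¬ Dep x y z) :
    LinearIndependent ℚ fun i => lg ((![x, y, z] : Fin 3 → ℚ) i) := by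
  rw [← LinearIndependent.iff_fractionRing ℤ ℚ, Fintype.linearIndependent_iff]
  intro g hg
  rw [Fin.sum_univ_three] at hg
  simp only [Matrix.cons_val_zero, Matrix.cons_val_one, Matrix.cons_val_two, Matrix.tail_cons,
    Matrix.head_cons, zsmul_eq_mul] at hg
  have h1 : lg (x ^ g 0 * y ^ g 1 * z ^ g 2) = 0 := by
    rw [lg_mul (by positivity) (by positivity), lg_mul (by positivity) (by positivity),
      lg_zpow, lg_zpow, lg_zpow]
    exact hg
  have h2 : x ^ g 0 * y ^ g 1 * z ^ g 2 = 1 := lg_eq_zero (by positivity) h1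
  by_contra hne
  push Not at hne
  obtain ⟨i, hi⟩ := hne
  apply h
  refine ⟨g 0, g 1, g 2, ?_, h2⟩
  fin_cases i
  · exact Or.inl hi
  · exact Or.inr (Or.inl hi)
  · exact Or.inr (Or.inr hi)

/-- the strong six exponentials theorem for rational numbers -/
lemma dep_of {t : ℂ} (ht : Transcendental ℚ t) {x y z : ℚ} (hx : 0 < x) (hy : 0 < y)
    (hz : 0 < z) (h1 : t * lg x ∈ Lt) (h2 : t * lg y ∈ Lt) (h3 : t * lg z ∈ Lt) :
    Dep x y z := by
  by_contra hcon
  have hli := indep_lg hx hy hz hcon
  have halg : ∀ i, IsAlgebraic ℚ (Complex.exp (lg ((![x, y, z] : Fin 3 → ℚ) i))) := by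
    intro i
    fin_cases i
    · exact exp_lg_alg hx
    · exact exp_lg_alg hy
    · exact exp_lg_alg hz
  refine strong_six ![1, t] (fun i => lg ((![x, y, z] : Fin 3 → ℚ) i)) ?_ ?_ ?_
  · intro a b ha hb hab
    simp only [Matrix.cons_val_zero, Matrix.cons_val_one, mul_one] at hab
    by_cases hb0 : b = 0
    · subst hb0
      rw [zero_mul, add_zero] at hab
      exact ⟨hab, rfl⟩
    · exfalso
      apply ht
      have e : t = -a * b⁻¹ := by
        field_simp
        linear_combination hab
      rw [e]
      exact ha.neg.mul hb.inv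
  · intro c hc hsum j
    exact (Pool.Agent.H297R2.baker_inhom _ halg hli 0 isAlgebraic_zero c hc
      (by rw [zero_add]; exact hsum)).2 j
  · intro i j
    fin_cases i
    · simp only [Fin.zero_eta, Matrix.cons_val_zero, one_mul]
      exact Lt_log (halg j)
    · simp only [Fin.mk_one, Matrix.cons_val_one]
      fin_cases j
      · exact h1
      · exact h2
      · exact h3

/-- the additive pairs -/
def Pairs (V : Set ℂ) (t : ℂ) : Set ℚ :=
  {x : ℚ | 0 < x ∧ x < 1 / 2 ∧ t * ((Real.log (x : ℝ) : ℝ) : ℂ) ∈ V ∧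
    t * ((Real.log ((1 - x : ℚ) : ℝ) : ℝ) : ℂ) ∈ V}

theorem dichotomy {t : ℂ} (ht : Transcendental ℚ t) (V : Submodule ℚ ℂ) (hV : ∀ z ∈ V, z ∈ Lt) :
    (Pairs V t).Subsingleton ∨ Pairs V t = {1 / 3, 1 / 4, 1 / 9} := by
  have hcore : ∀ x ∈ Pairs V t, ∀ x' ∈ Pairs V t, x' = x ∨ ((x = 1 / 3 ∨ x = 1 / 4 ∨ x = 1 / 9) ∧
      (x' = 1 / 3 ∨ x' = 1 / 4 ∨ x' = 1 / 9)) := by
    rintro x ⟨h0, h1, h2, h3⟩ x' ⟨h0', h1', h2', h3'⟩
    have hy : 0 < 1 - x := by linarith
    have hy' : 0 < 1 - x' := by linarith
    exact core h0 h1 h0' h1'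
      (dep_of ht h0 hy h0' (hV _ h2) (hV _ h3) (hV _ h2'))
      (dep_of ht h0 hy hy' (hV _ h2) (hV _ h3) (hV _ h3'))
      (dep_of ht h0' hy' h0 (hV _ h2') (hV _ h3') (hV _ h2))
      (dep_of ht h0' hy' hy (hV _ h2') (hV _ h3') (hV _ h3))
  have e4 : lg 4 = 2 * lg 2 := by
    have := lg_zpow 2 2
    norm_num at this
    exact this
  have e9 : lg 9 = 2 * lg 3 := by
    have := lg_zpow 3 2
    norm_num at this
    exact this
  have e8 : lg 8 = 3 * lg 2 := by
    have := lg_zpow 2 3
    norm_num at this
    exact this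
  have hA : ∀ z : ℂ, ∀ q : ℚ, z ∈ V → (q : ℂ) * z ∈ V := by
    intro z q hz
    have := V.smul_mem q hz
    rwa [Rat.smul_def] at this
  -- membership of the three special points
  have hall : t * lg 2 ∈ V → t * lg 3 ∈ V → ({1 / 3, 1 / 4, 1 / 9} : Set ℚ) ⊆ Pairs V t := by
    intro h2 h3
    have hm : ∀ a b : ℚ, (a : ℂ) * (t * lg 2) + (b : ℂ) * (t * lg 3) ∈ V :=
      fun a b => V.add_mem (hA _ a h2) (hA _ b h3)
    rintro x (rfl | rfl | rfl)
    · refine ⟨by norm_num, by norm_num, ?_, ?_⟩
      · have := hm 0 (-1)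
        change t * lg (1 / 3) ∈ V
        rw [lg_div (by norm_num) (by norm_num), lg_one]
        convert this using 1
        push_cast
        ring
      · have := hm 1 (-1)
        have e : (1 : ℚ) - 1 / 3 = 2 / 3 := by norm_num
        change t * lg (1 - 1 / 3) ∈ V
        rw [e, lg_div (by norm_num) (by norm_num)]
        convert this using 1
        push_cast
        ring
    · refine ⟨by norm_num, by norm_num, ?_, ?_⟩
      · have := hm (-2) 0
        change t * lg (1 / 4) ∈ V
        rw [lg_div (by norm_num) (by norm_num), lg_one, e4]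
        convert this using 1
        push_cast
        ring
      · have := hm (-2) 1
        have e : (1 : ℚ) - 1 / 4 = 3 / 4 := by norm_num
        change t * lg (1 - 1 / 4) ∈ V
        rw [e, lg_div (by norm_num) (by norm_num), e4]
        convert this using 1
        push_cast
        ring
    · refine ⟨by norm_num, by norm_num, ?_, ?_⟩
      · have := hm 0 (-2)
        change t * lg (1 / 9) ∈ V
        rw [lg_div (by norm_num) (by norm_num), lg_one, e9]
        convert this using 1
        push_cast
        ring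
      · have := hm 3 (-2)
        have e : (1 : ℚ) - 1 / 9 = 8 / 9 := by norm_num
        change t * lg (1 - 1 / 9) ∈ V
        rw [e, lg_div (by norm_num) (by norm_num), e9, e8]
        convert this using 1
        push_cast
        ring
  have hspec : ∀ x ∈ Pairs V t, (x = 1 / 3 ∨ x = 1 / 4 ∨ x = 1 / 9) →
      t * lg 2 ∈ V ∧ t * lg 3 ∈ V := by
    rintro x ⟨-, -, h2, h3⟩ hx
    rcases hx with rfl | rfl | rfl
    · change t * lg (1 / 3) ∈ V at h2
      change t * lg (1 - 1 / 3) ∈ V at h3
      have e : (1 : ℚ) - 1 / 3 = 2 / 3 := by norm_num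
      rw [lg_div (by norm_num) (by norm_num), lg_one] at h2
      rw [e, lg_div (by norm_num) (by norm_num)] at h3
      refine ⟨?_, ?_⟩
      · have := V.sub_mem h3 h2
        convert this using 1
        ring
      · have := V.neg_mem h2
        convert this using 1
        ring
    · change t * lg (1 / 4) ∈ V at h2
      change t * lg (1 - 1 / 4) ∈ V at h3
      have e : (1 : ℚ) - 1 / 4 = 3 / 4 := by norm_num
      rw [lg_div (by norm_num) (by norm_num), lg_one, e4] at h2
      rw [e, lg_div (by norm_num) (by norm_num), e4] at h3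
      refine ⟨?_, ?_⟩
      · have := hA _ (-1 / 2) h2
        convert this using 1
        push_cast
        ring
      · have := V.sub_mem h3 h2
        convert this using 1
        ring
    · change t * lg (1 / 9) ∈ V at h2
      change t * lg (1 - 1 / 9) ∈ V at h3
      have e : (1 : ℚ) - 1 / 9 = 8 / 9 := by norm_num
      rw [lg_div (by norm_num) (by norm_num), lg_one, e9] at h2
      rw [e, lg_div (by norm_num) (by norm_num), e9, e8] at h3
      refine ⟨?_, ?_⟩
      · have := hA _ (1 / 3) (V.sub_mem h3 h2)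
        convert this using 1
        push_cast
        ring
      · have := hA _ (-1 / 2) h2
        convert this using 1
        push_cast
        ring
  by_cases hex : ∃ x ∈ Pairs V t, x = 1 / 3 ∨ x = 1 / 4 ∨ x = 1 / 9
  · right
    obtain ⟨x, hx, hx'⟩ := hex
    obtain ⟨h2, h3⟩ := hspec x hx hx'
    refine Set.Subset.antisymm (fun s hs => ?_) (hall h2 h3)
    rcases hcore x hx s hs with h | ⟨-, h⟩
    · rw [h]
      exact hx'
    · exact h
  · left
    intro x hx x' hx'
    rcases hcore x hx x' hx' with h | ⟨h, -⟩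
    · exact h.symm
    · exact absurd ⟨x, hx, h⟩ hex

/-- **Gel'fond–Schneider** for positive rational bases -/
lemma gelfond {t : ℂ} (ht : IsAlgebraic ℚ t) (hq : ∀ q : ℚ, t ≠ q) {x : ℚ} (hx : 0 < x)
    (hx1 : x ≠ 1) : ¬ IsAlgebraic ℚ (Complex.exp (t * lg x)) := by
  intro h
  have hl0 : lg x ≠ 0 := fun h0 => hx1 (lg_eq_zero hx h0)
  have hli : LinearIndependent ℚ (![lg x, t * lg x] : Fin 2 → ℂ) := by
    rw [LinearIndependent.pair_iff]
    intro a b hab
    rw [Rat.smul_def, Rat.smul_def] at hab
    have h1 : ((a : ℂ) + b * t) * lg x = 0 := by linear_combination hab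
    have h2 : (a : ℂ) + b * t = 0 := (mul_eq_zero.1 h1).resolve_right hl0
    by_cases hb : b = 0
    · subst hb
      rw [Rat.cast_zero, zero_mul, add_zero] at h2
      exact ⟨by exact_mod_cast h2, rfl⟩
    · exfalso
      apply hq (-a / b)
      push_cast
      have hb' : (b : ℂ) ≠ 0 := by exact_mod_cast hb
      field_simp
      linear_combination h2
  have := (Pool.Agent.H297R2.baker_inhom (![lg x, t * lg x] : Fin 2 → ℂ) (by
    intro i
    fin_cases i
    · exact exp_lg_alg hx
    · exact h) hli 0 isAlgebraic_zero ![t, -1] (by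
    intro i
    fin_cases i
    · exact ht
    · exact isAlgebraic_one.neg) (by
    rw [Fin.sum_univ_two]
    simp)).2 1
  simp at this

/-- **Powers of rational numbers.** For an irrational complex number `t`, at most one rational `x` in
`(0, 1/2)` has the property that `x ^ t` and `(1 - x) ^ t` are algebraic, or the set of these `x` is
`{1/3, 1/4, 1/9}`. -/
theorem powers {t : ℂ} (ht : ∀ q : ℚ, t ≠ q) :
    {x : ℚ | 0 < x ∧ x < 1 / 2 ∧ IsAlgebraic ℚ (Complex.exp (t * lg x)) ∧
      IsAlgebraic ℚ (Complex.exp (t * lg (1 - x)))}.Subsingleton ∨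
    {x : ℚ | 0 < x ∧ x < 1 / 2 ∧ IsAlgebraic ℚ (Complex.exp (t * lg x)) ∧
      IsAlgebraic ℚ (Complex.exp (t * lg (1 - x)))} = {1 / 3, 1 / 4, 1 / 9} := by
  by_cases halg : IsAlgebraic ℚ t
  · left
    rintro x ⟨h0, h1, h2, -⟩
    exact absurd h2 (gelfond halg ht h0 (by linarith))
  · let V : Submodule ℚ ℂ :=
      { carrier := {z : ℂ | IsAlgebraic ℚ (Complex.exp z)}
        zero_mem' := by
          show IsAlgebraic ℚ (Complex.exp 0)
          rw [Complex.exp_zero]
          exact isAlgebraic_one
        add_mem' := by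
          intro a b ha hb
          show IsAlgebraic ℚ (Complex.exp (a + b))
          rw [Complex.exp_add]
          exact ha.mul hb
        smul_mem' := by
          intro q z hz
          show IsAlgebraic ℚ (Complex.exp (q • z))
          have hz' : IsAlgebraic ℚ (Complex.exp z) := hz
          have hden : (q.den : ℂ) ≠ 0 := by exact_mod_cast q.den_nz
          have h1 : Complex.exp (q • z) ^ q.den = Complex.exp z ^ q.num := by
            rw [← Complex.exp_nat_mul, ← Complex.exp_int_mul, Rat.smul_def]
            congr 1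
            have h2 : (q : ℂ) = q.num / q.den := by
              exact_mod_cast (Rat.num_div_den q).symm
            rw [h2]
            field_simp
          have h2 : IsAlgebraic ℚ (Complex.exp z ^ q.num) := by
            cases hn : q.num with
            | ofNat n =>
              rw [Int.ofNat_eq_natCast, zpow_natCast]
              exact hz'.pow n
            | negSucc n =>
              rw [zpow_negSucc]
              exact (hz'.pow _).inv
          rw [← h1] at h2
          exact h2.of_pow q.den_pos }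
    have h := dichotomy (t := t) halg V (fun z hz => Lt_log hz)
    exact h

end Pool.Agent.Q23.AP
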